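import Pool.Agent.R986.BRWFree

/-!
# Rényi entropies of the empirical distributions of a branching random walk

For every `α ∈ [0, 1)` the conjectured formula for the asymptotic Rényi entropy of order `α` of
the empirical distributions fails, for a branching random walk on the free group on two
generators.
-/

set_option autoImplicit false

open MeasureTheory Filter Topology
open scoped ENNReal

namespace Pool.Agent.Results.MP_96db20_pr.RenyiCounterexample

open Pool.Agent.R986.BRW

theorem result : ∀ α : ℝ, 0 ≤ α → α < 1 →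
    ∃ (μ : PMF (FreeGroup Bool)) (π : PMF ℕ) (ρ h c : ℝ),
      μ.support.Finite ∧ π.support.Finite ∧ π 0 = 0 ∧ mean π = ENNReal.ofReal ρ ∧ 1 < ρ ∧
      Tendsto (fun n : ℕ => renyi α (fun g => (convPow μ n g).toReal) / n) atTop (𝓝 h) ∧
      ρ ≤ Real.exp h ∧ c < Real.log ρ ∧
      ∀ᵐ ω ∂(@law (FreeGroup Bool) ⊤ μ π), ∀ᶠ n : ℕ in atTop,
        renyi α (emp ω n) / n ≤ c := by
  intro α h0 h1
  set β : ℝ := (1 + α) / 2 with hβ
  have hαβ : α < β := by rw [hβ]; linarith
  have hβ1 : β < 1 := by rw [hβ]; linarith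
  have hβ0 : 0 < β := by rw [hβ]; linarith
  have hRα : 0 < RR α := RR_pos α h1
  have hRβ : 0 < RR β := RR_pos β hβ1
  have hlt : RR β < RR α := RR_strict α β hαβ hβ1
  have hle : RR α ≤ Real.log 2 := RR_le α h0 h1
  set ρ : ℝ := Real.exp (RR α) with hρ
  have hρ1 : 1 < ρ := by rw [hρ]; exact Real.one_lt_exp_iff.2 hRα
  have hρ2 : ρ ≤ 2 := by
    rw [hρ, ← Real.le_log_iff_exp_le (by norm_num)]
    exact hle
  have hlog : Real.log ρ = RR α := by rw [hρ, Real.log_exp]
  set c : ℝ := (β * RR α + (1 - β) * RR β + RR α) / 2 with hc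
  have hmid : β * RR α + (1 - β) * RR β < RR α := by nlinarith
  refine ⟨stepLaw, offLaw (ρ - 1) (by linarith) (by linarith), ρ, RR α, c, ?_, ?_, ?_, ?_, hρ1,
    ?_, le_of_eq hρ, ?_, ?_⟩
  · refine (Set.finite_range (FreeGroup.of : Bool → FreeGroup Bool)).subset ?_
    intro g hg
    obtain ⟨b, hb⟩ := stepLaw_ne (show stepLaw g ≠ 0 from hg)
    exact ⟨b, hb.symm⟩
  · exact (Set.toFinite ({1, 2} : Set ℕ)).subset (offLaw_support _ _ _)
  · exact offLaw_zero _ _ _
  · rw [mean_offLaw]
    congr 1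
    ring
  · refine tendsto_const_nhds.congr' ?_
    filter_upwards [eventually_gt_atTop 0] with n hn
    rw [renyi_convPow, mul_div_cancel_left₀]
    exact_mod_cast hn.ne'
  · rw [hlog, hc]; linarith
  · letI : MeasurableSpace (FreeGroup Bool) := ⊤
    have : DiscreteMeasurableSpace (FreeGroup Bool) := ⟨fun _ => trivial⟩
    have hmain := ae_occN (offLaw (ρ - 1) (by linarith) (by linarith)) ρ (by
      rw [mean_offLaw]; congr 1; ring) (by linarith) β hβ0 hβ1 c (by rw [hlog, hc]; linarith)
      (by rw [hc]; nlinarith [mul_pos hβ0 hRα, mul_pos (sub_pos.2 hβ1) hRβ])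
    filter_upwards [hmain] with ω hω
    filter_upwards [hω, eventually_gt_atTop 0] with n hn hn0
    have hn1 : (0 : ℝ) < n := by exact_mod_cast hn0
    rw [div_le_iff₀ hn1]
    exact (renyi_emp_le ω n α h0 h1).trans hn

end Pool.Agent.Results.MP_96db20_pr.RenyiCounterexample
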